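import Pool.Agent.Helper99.BK.Stmts

namespace Pool.Helper99.BK

/-- the calculus lemma with a parameter `s ≤ √d` -/
theorem cal_plus : ∀ C : ℝ, 1 ≤ C → ∃ C' : ℝ, 1 ≤ C' ∧ ∀ d s t : ℝ, 1 ≤ d → 1 ≤ s →
    s ≤ Real.sqrt d → 1 ≤ t → t ≤ C * s * (Real.log d + Real.log t + C) ^ 19 →
    t ≤ C' * s * (1 + Real.log d) ^ 19 := by
  intro C hC
  have hlC : 0 ≤ Real.log C := Real.log_nonneg hC
  have hl38 : 0 ≤ Real.log 38 := Real.log_nonneg (by norm_num)
  obtain ⟨M, hM⟩ : ∃ M : ℝ, M = 3 + 2 * Real.log C + 2 * C + 38 * Real.log 38 := ⟨_, rfl⟩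
  have hM3 : 3 ≤ M := by rw [hM]; linarith
  have hM1 : 1 ≤ M := by linarith
  refine ⟨C * M ^ 19, ?_, ?_⟩
  · exact one_le_mul_of_one_le_of_one_le hC (one_le_pow₀ hM1)
  intro d s t hd hs hsd ht h
  have hld : 0 ≤ Real.log d := Real.log_nonneg hd
  have hlt : 0 ≤ Real.log t := Real.log_nonneg ht
  obtain ⟨y, hy⟩ : ∃ y : ℝ, y = Real.log d + Real.log t + C := ⟨_, rfl⟩
  rw [← hy] at h
  have hy1 : 1 ≤ y := by rw [hy]; linarith
  have hs0 : 0 < s := by linarith
  have hls : Real.log s ≤ Real.log d / 2 := by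
    have h1 := Real.log_le_log hs0 hsd
    rwa [Real.log_sqrt (by linarith)] at h1
  have hlogt : Real.log t ≤ Real.log C + Real.log d / 2 + 19 * Real.log y := by
    have h1 := Real.log_le_log (by linarith) h
    rw [Real.log_mul (by positivity) (by positivity), Real.log_mul (by positivity) (by positivity),
      Real.log_pow] at h1
    push_cast at h1
    linarith
  have hly : Real.log y ≤ y / 38 + Real.log 38 := by
    have h1 : Real.log (y / 38) ≤ y / 38 - 1 := Real.log_le_sub_one_of_pos (by positivity)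
    rw [Real.log_div (by positivity) (by norm_num)] at h1
    linarith
  have hyM : y ≤ M * (1 + Real.log d) := by
    have h1 : Real.log t ≤ Real.log C + Real.log d / 2 + (y / 2 + 19 * Real.log 38) := by
      linarith
    have h2 : Real.log t ≤ 2 * Real.log C + 2 * Real.log d + C + 38 * Real.log 38 := by
      rw [hy] at h1
      linarith
    have h3 : y ≤ 3 * Real.log d + (2 * Real.log C + 2 * C + 38 * Real.log 38) := by
      rw [hy]
      linarith
    have h4 : M * (1 + Real.log d) = M + M * Real.log d := by ring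
    have h5 : 3 * Real.log d ≤ M * Real.log d := mul_le_mul_of_nonneg_right hM3 hld
    rw [h4]
    linarith
  have h19 : y ^ 19 ≤ (M * (1 + Real.log d)) ^ 19 := pow_le_pow_left₀ (by linarith) hyM 19
  rw [mul_pow] at h19
  have h20 : t ≤ C * s * (M ^ 19 * (1 + Real.log d) ^ 19) :=
    h.trans (mul_le_mul_of_nonneg_left h19 (by positivity))
  have h21 : C * s * (M ^ 19 * (1 + Real.log d) ^ 19) =
      C * M ^ 19 * s * (1 + Real.log d) ^ 19 := by
    generalize M ^ 19 = a
    generalize (1 + Real.log d) ^ 19 = b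
    ring
  rw [h21] at h20
  exact h20

end Pool.Helper99.BK
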