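import Pool.Agent.Helper99.BK.Stmts

namespace Pool.Helper99.BK

/-- the real root close to `-2 s` -/
theorem rt_real (s Y D : ℝ) (hs : 10 ≤ s) (hY : 0 < Y) (h : Y ^ 2 = s ^ 6 + D) (hD : D ≠ 0)
    (hDs : 100 * |D| ≤ s ^ 2) : ∃ u : ℝ, u ≠ 0 ∧ |u| * s ^ 5 ≤ |D| ∧
      u * (u - 3 * s) ^ 2 + 2 * (Y - s ^ 3) = 0 := by
  have hs0 : 0 < s := by linarith
  set e := Y - s ^ 3 with he
  have h1 : e * (Y + s ^ 3) = D := by rw [he]; nlinarith
  have he0 : e ≠ 0 := by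
    intro h0
    rw [h0, zero_mul] at h1
    exact hD h1.symm
  have h2 : |e| * s ^ 3 ≤ |D| := by
    rw [← h1, abs_mul, abs_of_pos (show 0 < Y + s ^ 3 by positivity)]
    exact mul_le_mul_of_nonneg_left (by linarith) (abs_nonneg _)
  set δ := |e| / s ^ 2 with hδ
  have hδ0 : 0 ≤ δ := by positivity
  have hδe : δ * s ^ 2 = |e| := by rw [hδ]; field_simp
  have hδs : δ * s ^ 5 ≤ |D| := by
    calc δ * s ^ 5 = (δ * s ^ 2) * s ^ 3 := by ring
      _ = |e| * s ^ 3 := by rw [hδe]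
      _ ≤ |D| := h2
  have hδ1 : δ ≤ s := by
    have h3 : δ * s ^ 5 ≤ s * s ^ 5 := by
      have h4 : |D| ≤ s ^ 2 := by linarith [abs_nonneg D]
      have h5 : s ^ 2 ≤ s ^ 6 := pow_le_pow_right₀ (by linarith) (by norm_num)
      calc δ * s ^ 5 ≤ |D| := hδs
        _ ≤ s ^ 6 := h4.trans h5
        _ = s * s ^ 5 := by ring
    exact le_of_mul_le_mul_right h3 (by positivity)
  have hc : ContinuousOn (fun u : ℝ => u * (u - 3 * s) ^ 2 + 2 * e) (Set.Icc (-δ) δ) := by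
    fun_prop
  have hle : -δ ≤ δ := by linarith
  have hi := intermediate_value_Icc hle hc
  have ha : (-δ) * ((-δ) - 3 * s) ^ 2 + 2 * e ≤ 0 := by
    have h3 : 9 * (δ * s ^ 2) ≤ δ * (δ + 3 * s) ^ 2 := by
      have : 9 * (δ * s ^ 2) = δ * (3 * s) ^ 2 := by ring
      rw [this]
      exact mul_le_mul_of_nonneg_left (pow_le_pow_left₀ (by positivity) (by linarith) 2) hδ0
    rw [hδe] at h3
    have h4 := le_abs_self e
    have h5 := abs_nonneg e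
    nlinarith
  have hb : 0 ≤ δ * (δ - 3 * s) ^ 2 + 2 * e := by
    have h3 : 4 * (δ * s ^ 2) ≤ δ * (3 * s - δ) ^ 2 := by
      have : 4 * (δ * s ^ 2) = δ * (2 * s) ^ 2 := by ring
      rw [this]
      exact mul_le_mul_of_nonneg_left (pow_le_pow_left₀ (by positivity) (by linarith) 2) hδ0
    rw [hδe] at h3
    have h4 := neg_abs_le e
    have h5 := abs_nonneg e
    nlinarith
  obtain ⟨u, hu, hu0⟩ := hi ⟨ha, hb⟩
  have hu0' : u * (u - 3 * s) ^ 2 + 2 * e = 0 := hu0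
  refine ⟨u, ?_, ?_, hu0'⟩
  · intro h0
    rw [h0, zero_mul, zero_add] at hu0'
    exact he0 (by linarith)
  · have : |u| ≤ δ := abs_le.2 hu
    calc |u| * s ^ 5 ≤ δ * s ^ 5 := mul_le_mul_of_nonneg_right this (by positivity)
      _ ≤ |D| := hδs

theorem st_RT : ST_RT := by
  refine ⟨100, by norm_num, ?_⟩
  intro x y d hxy hd hy hdx
  have hd1 : 1 ≤ |(d : ℝ)| := by
    have := Int.one_le_abs hd
    exact_mod_cast this
  have hx0 : (0 : ℝ) < x := by linarith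
  set s := Real.sqrt (x : ℝ) with hs
  have hs2 : s ^ 2 = x := Real.sq_sqrt hx0.le
  have hs10 : 10 ≤ s := by
    rw [hs]
    apply Real.le_sqrt_of_sq_le
    linarith
  have hs0 : 0 < s := by linarith
  have hreal : (y : ℝ) ^ 2 = s ^ 6 + d := by
    have h1 : (y : ℝ) ^ 2 = (x : ℝ) ^ 3 + d := by exact_mod_cast hxy
    rw [h1, ← hs2]
    ring
  obtain ⟨u, hu0, hus, hur⟩ := rt_real s y d hs10 (by exact_mod_cast hy) hreal
    (by exact_mod_cast hd) (by rw [hs2]; exact hdx)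
  have hu1 : |u| ≤ 1 := by
    have h1 : |u| * s ^ 5 ≤ 1 * s ^ 5 := by
      have h4 : |(d : ℝ)| ≤ s ^ 2 := by rw [hs2]; linarith [abs_nonneg (d : ℝ)]
      have h5 : s ^ 2 ≤ s ^ 5 := pow_le_pow_right₀ (by linarith) (by norm_num)
      linarith
    exact le_of_mul_le_mul_right h1 (by positivity)
  have hu2 := abs_le.1 hu1
  -- the square root of the discriminant of the quadratic factor
  set Δ : ℝ := 3 * (4 * s - u) * u with hΔ
  have h4s : 0 < 4 * s - u := by linarith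
  have hΔ0 : Δ ≠ 0 := mul_ne_zero (mul_ne_zero (by norm_num) h4s.ne') hu0
  have hΔb : |Δ| * s ^ 4 ≤ 15 * |(d : ℝ)| := by
    rw [hΔ, abs_mul, abs_mul, abs_of_pos h4s, abs_of_pos (show (0 : ℝ) < 3 by norm_num)]
    calc 3 * (4 * s - u) * |u| * s ^ 4 ≤ 3 * (5 * s) * |u| * s ^ 4 := by
          have : 4 * s - u ≤ 5 * s := by linarith
          gcongr
      _ = 15 * (|u| * s ^ 5) := by ring
      _ ≤ 15 * |(d : ℝ)| := by linarith
  obtain ⟨w, hw2, hwn, hwr⟩ : ∃ w : ℂ, w ^ 2 = (Δ : ℂ) ∧ ‖w‖ ^ 2 = |Δ| ∧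
      (w.im = 0 ∨ (starRingEnd ℂ) w = -w) := by
    rcases lt_or_gt_of_ne hΔ0 with hneg | hpos
    · refine ⟨Complex.I * ((Real.sqrt (-Δ) : ℝ) : ℂ), ?_, ?_, Or.inr ?_⟩
      · rw [mul_pow, Complex.I_sq, ← Complex.ofReal_pow, Real.sq_sqrt (by linarith)]
        push_cast
        ring
      · rw [norm_mul, Complex.norm_I, one_mul, Complex.norm_real, Real.norm_eq_abs, sq_abs,
          Real.sq_sqrt (by linarith), abs_of_neg hneg]
      · rw [map_mul, Complex.conj_I, Complex.conj_ofReal]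
        ring
    · refine ⟨((Real.sqrt Δ : ℝ) : ℂ), ?_, ?_, Or.inl (Complex.ofReal_im _)⟩
      · rw [← Complex.ofReal_pow, Real.sq_sqrt hpos.le]
      · rw [Complex.norm_real, Real.norm_eq_abs, sq_abs, Real.sq_sqrt hpos.le, abs_of_pos hpos]
  have hw0 : w ≠ 0 := by
    intro h0
    rw [h0] at hw2
    apply hΔ0
    have : ((Δ : ℝ) : ℂ) = 0 := by rw [← hw2]; ring
    exact_mod_cast this
  have hwx : s ^ 2 * ‖w‖ ≤ 100 * Real.sqrt |(d : ℝ)| := by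
    apply abs_le_of_sq_le_sq' _ (by positivity) |>.2
    rw [mul_pow, mul_pow, hwn, Real.sq_sqrt (abs_nonneg _)]
    nlinarith
  have hw1 : ‖w‖ ≤ 1 := by
    have h1 : ‖w‖ ^ 2 ≤ 1 := by
      rw [hwn]
      have h2 : |Δ| * s ^ 4 ≤ 1 * s ^ 4 := by
        have h3 : 15 * |(d : ℝ)| ≤ s ^ 2 := by rw [hs2]; linarith [abs_nonneg (d : ℝ)]
        have h5 : s ^ 2 ≤ s ^ 4 := pow_le_pow_right₀ (by linarith) (by norm_num)
        linarith
      exact le_of_mul_le_mul_right h2 (by positivity)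
    nlinarith [norm_nonneg w]
  -- the roots
  set z0 : ℝ := -2 * s + u with hz0
  have hz0n : 2 * s - 1 ≤ ‖(z0 : ℂ)‖ ∧ ‖(z0 : ℂ)‖ ≤ 2 * s + 1 := by
    rw [Complex.norm_real, Real.norm_eq_abs, abs_of_neg (by rw [hz0]; linarith), hz0]
    constructor <;> linarith
  have hroot0 : z0 ^ 3 - 3 * s ^ 2 * z0 + 2 * y = 0 := by
    rw [hz0]
    linear_combination hur
  have hΔz : Δ = 12 * s ^ 2 - 3 * z0 ^ 2 := by rw [hΔ, hz0]; ring
  have hxs : ((x : ℤ) : ℂ) = ((s : ℝ) : ℂ) ^ 2 := by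
    rw [← Complex.ofReal_pow, hs2]
    push_cast
    rfl
  have hroot0' : ((z0 : ℝ) : ℂ) ^ 3 - 3 * ((s : ℝ) : ℂ) ^ 2 * ((z0 : ℝ) : ℂ) + 2 * (y : ℂ) = 0 := by
    exact_mod_cast congrArg (fun t : ℝ => (t : ℂ)) hroot0
  have hw2' : w ^ 2 = 12 * ((s : ℝ) : ℂ) ^ 2 - 3 * ((z0 : ℝ) : ℂ) ^ 2 := by
    rw [hw2, hΔz]
    push_cast
    ring
  have n1 : Real.sqrt x ≤ ‖(z0 : ℂ) - (-(z0 : ℂ) + w) / 2‖ := by
    have e1 : (z0 : ℂ) - (-(z0 : ℂ) + w) / 2 = (3 * (z0 : ℂ) - w) / 2 := by ring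
    rw [e1, norm_div]
    have e2 : ‖(3 : ℂ) * (z0 : ℂ)‖ - ‖w‖ ≤ ‖3 * (z0 : ℂ) - w‖ := norm_sub_norm_le _ _
    rw [norm_mul] at e2
    have e3 : ‖(3 : ℂ)‖ = 3 := by norm_num
    have e4 : ‖(2 : ℂ)‖ = 2 := by norm_num
    rw [e3] at e2
    rw [e4, ← hs, le_div_iff₀ (by norm_num)]
    nlinarith [hz0n.1]
  have n2 : Real.sqrt x ≤ ‖(z0 : ℂ) - (-(z0 : ℂ) - w) / 2‖ := by
    have e1 : (z0 : ℂ) - (-(z0 : ℂ) - w) / 2 = (3 * (z0 : ℂ) - -w) / 2 := by ring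
    rw [e1, norm_div]
    have e2 : ‖(3 : ℂ) * (z0 : ℂ)‖ - ‖-w‖ ≤ ‖3 * (z0 : ℂ) - -w‖ := norm_sub_norm_le _ _
    rw [norm_mul, norm_neg] at e2
    have e3 : ‖(3 : ℂ)‖ = 3 := by norm_num
    have e4 : ‖(2 : ℂ)‖ = 2 := by norm_num
    rw [e3] at e2
    rw [e4, ← hs, le_div_iff₀ (by norm_num)]
    nlinarith [hz0n.1]
  have hspos : 0 < Real.sqrt (x : ℝ) := by rw [← hs]; exact hs0
  refine ⟨![(z0 : ℂ), (-(z0 : ℂ) + w) / 2, (-(z0 : ℂ) - w) / 2], ?_, ?_, ?_, ?_, ?_, ?_, ?_⟩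
  · have h01 : (z0 : ℂ) ≠ (-(z0 : ℂ) + w) / 2 := by
      intro h
      rw [← h, sub_self, norm_zero] at n1
      linarith
    have h02 : (z0 : ℂ) ≠ (-(z0 : ℂ) - w) / 2 := by
      intro h
      rw [← h, sub_self, norm_zero] at n2
      linarith
    have h12 : (-(z0 : ℂ) + w) / 2 ≠ (-(z0 : ℂ) - w) / 2 := by
      intro h
      apply hw0
      linear_combination h
    intro i j hij
    fin_cases i <;> fin_cases j
    · rfl
    · exact absurd hij h01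
    · exact absurd hij h02
    · exact absurd hij.symm h01
    · rfl
    · exact absurd hij h12
    · exact absurd hij.symm h02
    · exact absurd hij.symm h12
    · rfl
  · intro i
    fin_cases i
    · change (z0 : ℂ) ^ 3 - 3 * (x : ℂ) * (z0 : ℂ) + 2 * (y : ℂ) = 0
      rw [hxs]
      exact hroot0'
    · change ((-(z0 : ℂ) + w) / 2) ^ 3 - 3 * (x : ℂ) * ((-(z0 : ℂ) + w) / 2) + 2 * (y : ℂ) = 0
      rw [hxs]
      linear_combination hroot0' + ((-(z0 : ℂ) + w) / 2 - (z0 : ℂ)) / 4 * hw2'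
    · change ((-(z0 : ℂ) - w) / 2) ^ 3 - 3 * (x : ℂ) * ((-(z0 : ℂ) - w) / 2) + 2 * (y : ℂ) = 0
      rw [hxs]
      linear_combination hroot0' + ((-(z0 : ℂ) - w) / 2 - (z0 : ℂ)) / 4 * hw2'
  · have hb : ∀ v : ℂ, ‖v‖ ≤ 2 * s + 1 → ‖v‖ ≤ 100 * (x : ℝ) := by
      intro v hv
      rw [← hs2]
      nlinarith
    have hb1 : ∀ v : ℂ, ‖v‖ ≤ 1 → ‖(-(z0 : ℂ) + v) / 2‖ ≤ 100 * (x : ℝ) := by
      intro v hv
      apply hb
      rw [norm_div]
      have e4 : ‖(2 : ℂ)‖ = 2 := by norm_num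
      have e5 := norm_add_le (-(z0 : ℂ)) v
      rw [norm_neg] at e5
      rw [e4, div_le_iff₀ (by norm_num)]
      nlinarith [hz0n.2]
    intro i
    fin_cases i
    · exact hb _ hz0n.2
    · exact hb1 w hw1
    · change ‖(-(z0 : ℂ) - w) / 2‖ ≤ _
      rw [sub_eq_add_neg]
      exact hb1 (-w) (by rwa [norm_neg])
  · exact n1
  · exact n2
  · change (x : ℝ) * ‖(-(z0 : ℂ) + w) / 2 - (-(z0 : ℂ) - w) / 2‖ ≤ _
    have e1 : (-(z0 : ℂ) + w) / 2 - (-(z0 : ℂ) - w) / 2 = w := by ring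
    rw [e1, ← hs2]
    exact hwx
  · rcases hwr with hwr | hwr
    · left
      intro i
      fin_cases i
      · exact Complex.ofReal_im _
      · change ((-(z0 : ℂ) + w) / 2).im = 0
        have : (-(z0 : ℂ) + w) / 2 = (((-z0 + w.re) / 2 : ℝ) : ℂ) := by
          apply Complex.ext <;> simp [hwr]
        rw [this]
        exact Complex.ofReal_im _
      · change ((-(z0 : ℂ) - w) / 2).im = 0
        have : (-(z0 : ℂ) - w) / 2 = (((-z0 - w.re) / 2 : ℝ) : ℂ) := by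
          apply Complex.ext <;> simp [hwr]
        rw [this]
        exact Complex.ofReal_im _
    · right
      refine ⟨?_, Complex.ofReal_im _⟩
      change (-(z0 : ℂ) - w) / 2 = (starRingEnd ℂ) ((-(z0 : ℂ) + w) / 2)
      rw [map_div₀, map_add, map_neg, Complex.conj_ofReal, hwr]
      have : (starRingEnd ℂ) (2 : ℂ) = 2 := Complex.conj_ofNat 2
      rw [this]
      ring

end Pool.Helper99.BK
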